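import Mathlib

namespace Pool.Agent.Results.MP_6050fa_nt.Coprime

lemma gap (C d : ℕ) (hd : 2 ≤ d) : C ^ d + d * C + 1 ≤ (C + 1) ^ d := by
  induction d, hd using Nat.le_induction with
  | base => nlinarith
  | succ d hd ih =>
    have h1 : (C ^ d + d * C + 1) * (C + 1) ≤ (C + 1) ^ d * (C + 1) := Nat.mul_le_mul_right _ ih
    rw [pow_succ, pow_succ]
    nlinarith [Nat.zero_le (C ^ d), Nat.zero_le (d * C * C)]

lemma nogap (A B d t : ℕ) (hd : 2 ≤ d) (ht : 1 ≤ t) (h : A ^ d = B ^ d + d * t)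
    (hA : t < A ∨ t < B) : False := by
  have hlt : B < A := by
    apply lt_of_pow_lt_pow_left₀ d (Nat.zero_le _)
    have : 0 < d * t := Nat.mul_pos (by omega) ht
    omega
  obtain ⟨C, rfl⟩ : ∃ C, A = C + 1 := ⟨A - 1, by omega⟩
  have h1 := gap C d hd
  have h2 : B ^ d ≤ C ^ d := Nat.pow_le_pow_left (by omega) d
  have h3 : d * t ≤ d * C := Nat.mul_le_mul_left d (by omega)
  omega

lemma nat_main (x n y m : ℕ) (hx : 2 ≤ x) (hn : 2 ≤ n)
    (h : x ^ n = y ^ m + n ∨ x ^ n + n = y ^ m) :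
    Nat.Coprime n m ∧ (Nat.gcd x y) ^ m ∣ n := by
  constructor
  · by_contra hc
    have hd0 : 0 < Nat.gcd n m := Nat.gcd_pos_of_pos_left _ (by omega)
    have hd : 2 ≤ Nat.gcd n m := by
      unfold Nat.Coprime at hc
      omega
    obtain ⟨t, ht⟩ := Nat.gcd_dvd_left n m
    obtain ⟨s, hs⟩ := Nat.gcd_dvd_right n m
    generalize Nat.gcd n m = d at hd ht hs
    have ht1 : 1 ≤ t := by
      rcases Nat.eq_zero_or_pos t with rfl | h0
      · omega
      · exact h0
    have hxt : t < x ^ t := Nat.lt_pow_self (by omega)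
    have e1 : x ^ n = (x ^ t) ^ d := by rw [ht, ← pow_mul, mul_comm]
    have e2 : y ^ m = (y ^ s) ^ d := by rw [hs, ← pow_mul, mul_comm]
    rcases h with h | h
    · exact nogap (x ^ t) (y ^ s) d t hd ht1 (by omega) (Or.inl hxt)
    · exact nogap (y ^ s) (x ^ t) d t hd ht1 (by omega) (Or.inr hxt)
  · have key : ∀ k, k ≤ n → k ≤ m → (Nat.gcd x y) ^ k ∣ n := by
      intro k hkn hkm
      have h1 : (Nat.gcd x y) ^ k ∣ x ^ n :=
        (pow_dvd_pow_of_dvd (Nat.gcd_dvd_left x y) k).trans (pow_dvd_pow x hkn)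
      have h2 : (Nat.gcd x y) ^ k ∣ y ^ m :=
        (pow_dvd_pow_of_dvd (Nat.gcd_dvd_right x y) k).trans (pow_dvd_pow y hkm)
      rcases h with h | h
      · rw [h] at h1
        exact (Nat.dvd_add_right h2).1 h1
      · rw [← h] at h2
        exact (Nat.dvd_add_right h1).1 h2
    rcases le_total m n with hmn | hmn
    · exact key m hmn le_rfl
    · have h1 := Nat.le_of_dvd (by omega) (key n le_rfl hmn)
      have hg0 : 0 < Nat.gcd x y := Nat.gcd_pos_of_pos_left _ (by omega)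
      rcases Nat.lt_or_ge 1 (Nat.gcd x y) with hg | hg
      · have := Nat.lt_pow_self (n := n) hg
        omega
      · have hg1 : Nat.gcd x y = 1 := by omega
        rw [hg1]
        simp

theorem result (x n y m : ℕ) (hx : 2 ≤ x) (hn : 2 ≤ n) (_hy : 2 ≤ y) (_hm : 2 ≤ m)
    (h : (x : ℤ) ^ n - n = (y : ℤ) ^ m ∨ (x : ℤ) ^ n + n = (y : ℤ) ^ m) :
    Nat.gcd n m = 1 ∧ (Nat.gcd x y) ^ m ∣ n := by
  apply nat_main x n y m hx hn
  rcases h with h | h
  · left
    have : (x : ℤ) ^ n = (y : ℤ) ^ m + n := by linarith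
    exact_mod_cast this
  · right
    exact_mod_cast h

end Pool.Agent.Results.MP_6050fa_nt.Coprime
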